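import Pool.Agent.Q76.CH.Fin

/-!
# MP_570bb5_an: chaos and hypercyclicity pass from `L ^ p₂` to `L ^ p₁`, `p₂ ≤ p₁ < ∞`

`X = G / K` is a homogeneous space: `G` is a locally compact, second countable, Hausdorff,
unimodular group, `K` a compact subgroup, and `X` is a smooth manifold on which `G` acts by smooth
maps (for instance any Riemannian symmetric space of noncompact type, of any rank).
`T` is a multiplier: it is given on `C_c^∞(X)`, commutes with the action of `G`, and extends to the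
bounded operators `T₁` of `L ^ p₁ (X)` and `T₂` of `L ^ p₂ (X)`. If `T₂` is hypercyclic, so is `T₁`;
if `T₂` is chaotic, so is `T₁`.
-/

set_option autoImplicit false

namespace Pool.Agent.Results.MP_570bb5_an.DynamicsPasses

open MeasureTheory Pool.Agent.Q76.CH
open scoped ENNReal Manifold ContDiff

theorem result {G : Type} [Group G] [TopologicalSpace G] [IsTopologicalGroup G]
    [LocallyCompactSpace G] [T2Space G] [SecondCountableTopology G] [MeasurableSpace G]
    [BorelSpace G] (ν : Measure G) [ν.IsHaarMeasure] [ν.IsMulRightInvariant]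
    (K : Subgroup G) (hK : IsCompact (K : Set G)) [MeasurableSpace (G ⧸ K)] [BorelSpace (G ⧸ K)]
    {E : Type} [NormedAddCommGroup E] [NormedSpace ℝ E] [FiniteDimensional ℝ E]
    {H : Type} [TopologicalSpace H] (I : ModelWithCorners ℝ E H) [ChartedSpace H (G ⧸ K)]
    [IsManifold I ∞ (G ⧸ K)] (hsm : ∀ g : G, ContMDiff I I ∞ fun x : G ⧸ K => g • x)
    (p₂ p₁ : ℝ≥0∞) [Fact (1 ≤ p₂)] [Fact (1 ≤ p₁)] (h21 : p₂ ≤ p₁) (ht : p₁ ≠ (⊤ : ℝ≥0∞))
    (T : (G ⧸ K → ℂ) → (G ⧸ K → ℂ)) (hT : Commutes I (muK ν K) G T)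
    (T₁ : Op (muK ν K) p₁) (hT₁ : Extends I T T₁) (T₂ : Op (muK ν K) p₂) (hT₂ : Extends I T T₂) :
    (T₂.Hyper → T₁.Hyper) ∧ (T₂.Chaos → T₁.Chaos) :=
  passes ν K I hK hsm p₂ p₁ h21 ht T hT T₁ hT₁ T₂ hT₂

end Pool.Agent.Results.MP_570bb5_an.DynamicsPasses
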